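import Mathlib

namespace Pool.Agent.Results.MP_4a8fbb_co.Leap

open Function Relation Finset

/-- piece `i` jumps over piece `j` -/
def Jump {G : Type} [AddCommGroup G] {n : ℕ} (p q : Fin n → G) : Prop :=
  ∃ i j, i ≠ j ∧ q = update p i (2 • p j - p i)

abbrev E := EuclideanSpace ℝ (Fin 3)

/-- finitely many jumps lead to a similar copy with ratio `> 1` -/
def Enl {n : ℕ} (p : Fin n → E) : Prop :=
  ∃ q, ReflTransGen Jump p q ∧ ∃ (σ : E ≃ E) (r : ℝ), 1 < r ∧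
    (∀ x y, dist (σ x) (σ y) = r * dist x y) ∧ Set.range q = σ '' Set.range p

noncomputable def ico (g : ℝ) : Fin 12 → E :=
  ![!₂[0, 1, g], !₂[0, 1, -g], !₂[0, -1, g], !₂[0, -1, -g],
    !₂[g, 0, 1], !₂[-g, 0, 1], !₂[g, 0, -1], !₂[-g, 0, -1],
    !₂[1, g, 0], !₂[1, -g, 0], !₂[-1, g, 0], !₂[-1, -g, 0]]

noncomputable def dod (g : ℝ) : Fin 20 → E :=
  ![!₂[1, 1, 1], !₂[1, 1, -1], !₂[1, -1, 1], !₂[1, -1, -1],
    !₂[-1, 1, 1], !₂[-1, 1, -1], !₂[-1, -1, 1], !₂[-1, -1, -1],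
    !₂[0, g⁻¹, g], !₂[0, g⁻¹, -g], !₂[0, -g⁻¹, g], !₂[0, -g⁻¹, -g],
    !₂[g, 0, g⁻¹], !₂[-g, 0, g⁻¹], !₂[g, 0, -g⁻¹], !₂[-g, 0, -g⁻¹],
    !₂[g⁻¹, g, 0], !₂[g⁻¹, -g, 0], !₂[-g⁻¹, g, 0], !₂[-g⁻¹, -g, 0]]

variable {G H : Type} [AddCommGroup G] [AddCommGroup H] {n : ℕ}

theorem symm {p q : Fin n → G} (h : Jump p q) : Jump q p := by
  obtain ⟨i, j, h, rfl⟩ := h
  exact ⟨i, j, h, by simp [h.symm]⟩

theorem symm' {p q : Fin n → G} (h : ReflTransGen Jump p q) : ReflTransGen Jump q p := by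
  induction h with
  | refl => rfl
  | tail _ h ih => exact .head (symm h) ih

theorem map (f : G → H) (hf : ∀ a b, f (2 • b - a) = 2 • f b - f a) {p q : Fin n → G}
    (h : ReflTransGen Jump p q) : ReflTransGen Jump (f ∘ p) (f ∘ q) := by
  induction h with
  | refl => rfl
  | tail _ h ih =>
    obtain ⟨i, j, h, rfl⟩ := h
    exact ih.tail ⟨i, j, h, by simp [comp_update, hf]⟩

theorem move (p : Fin n → G) (i j : Fin n) (hj : i ≠ j) (c : Fin n → ℤ) (h0 : c i = 0)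
    (h1 : ∑ k, c k = 0) : ReflTransGen Jump p (update p i (p i + 2 • ∑ k, c k • p k)) := by
  let K : AddSubgroup G :=
    { carrier := {v | ∀ a, ReflTransGen Jump (update p i a) (update p i (a + 2 • v))}
      add_mem' := fun {u v} hu hv a => by
        rw [smul_add, ← add_assoc]; exact (hu a).trans (hv _)
      zero_mem' := fun a => by simpa using .refl
      neg_mem' := fun {v} hv a => by
        have := hv (a + 2 • -v)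
        rw [show a + 2 • -v + 2 • v = a by simp] at this
        exact symm' this }
  have : ∑ k, c k • (p k - p j) ∈ K := sum_mem fun k _ => by
    by_cases hk : i = k
    · simp [← hk, h0]
    refine zsmul_mem (fun a => ?_) _
    refine .tail (.single ⟨i, j, hj, rfl⟩) ⟨i, k, hk, ?_⟩
    simp only [update_self, update_idem, update_of_ne hj.symm, update_of_ne (Ne.symm hk)]
    congr 1
    abel
  simpa [smul_sub, sum_sub_distrib, ← sum_smul, h1] using this (p i)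

def X (l : List (List ℤ)) (i : ℕ) (m : ℕ) : ℤ := (l.getD i []).getD m 0

def L (v : Fin 6 → ℤ) : Fin 6 → ℤ :=
  ![5 * v 0 + 8 * v 1, 8 * v 0 + 13 * v 1, 5 * v 2 + 8 * v 3, 8 * v 2 + 13 * v 3,
    5 * v 4 + 8 * v 5, 8 * v 4 + 13 * v 5]

def P (l : List (List ℤ)) (r : Fin n → ℕ) (k : ℕ) (i : Fin n) : Fin 6 → ℤ :=
  if r i < k then L fun m => X l i m else fun m => X l i m

noncomputable def em (v : Fin 6 → ℤ) : E :=
  !₂[v 0 + v 1 * Real.goldenRatio, v 2 + v 3 * Real.goldenRatio, v 4 + v 5 * Real.goldenRatio]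

theorem main (l c : List (List ℤ)) (r : Fin n → ℕ) (o o' : ℕ → Fin n) (hr : ∀ i, r i < n)
    (h : ∀ k < n, o k ≠ o' k ∧ X c k (o k) = 0 ∧ ∑ j : Fin n, X c k j = 0 ∧ ∀ i m, P l r (k + 1) i m =
      if i = o k then P l r k i m + 2 * ∑ j : Fin n, X c k j * P l r k j m else P l r k i m)
    (p : Fin n → E) (hp : ∀ i, p i = em fun m => X l i m) (A : E →ᵃ[ℝ] E) : Enl (A ∘ p) := by
  have a : ∀ k ≤ n, ReflTransGen Jump (P l r 0) (P l r k) := fun k hk => by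
    induction k with
    | zero => rfl
    | succ k ih =>
      obtain ⟨h1, h2, h3, h4⟩ := h k hk
      convert (ih (by omega)).trans (move _ _ _ h1 (fun j => X c k j) h2 h3) using 1
      ext i m
      rw [h4]
      split_ifs with e
      · simp [e]
      · simp [e]
  have d : ∀ x, A x = A.linear x + A 0 := fun x => by simpa using A.map_vadd 0 x
  have g := Real.goldenRatio_sq
  have g1 := Real.one_lt_goldenRatio
  have b := map A (fun a b => by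
    rw [d, d a, d b, map_sub, map_nsmul]
    abel) (map em (fun a b => by
    ext i; fin_cases i <;> simp [em] <;> ring) (a n le_rfl))
  have e0 : em ∘ P l r 0 = p := funext fun i => by simp [P, hp]
  have e1 : em ∘ P l r n = fun i => (5 + 8 * Real.goldenRatio) • p i := funext fun i => by
    ext m
    simp only [comp, P, hp, hr, em, L, if_true]
    generalize Real.goldenRatio = u at g
    fin_cases m <;> simp <;> grind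
  rw [e0, e1] at b
  have u1 : 1 < 5 + 8 * Real.goldenRatio := by linarith
  generalize 5 + 8 * Real.goldenRatio = u at b u1
  have u0 : 0 < u := by linarith
  refine ⟨_, b, (AffineEquiv.homothetyUnitsMulHom (A 0) (Units.mk0 u u0.ne')).toEquiv, u, u1,
    fun x y => ?_, ?_⟩
  · simp [AffineMap.homothety_apply, dist_smul₀, abs_of_pos u0]
  · rw [← Set.range_comp]
    congr 1
    ext1 i
    simp only [comp]
    rw [d, d (p i)]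
    simp [AffineMap.homothety_apply]

theorem result (A : E →ᵃ[ℝ] E) :
    Enl (A ∘ dod Real.goldenRatio) ∧ Enl (A ∘ ico Real.goldenRatio) := by
  have g : Real.goldenRatio⁻¹ = -1 + Real.goldenRatio := by
    rw [Real.inv_goldenRatio, ← Real.goldenRatio_add_goldenConj]; ring
  refine ⟨main [[1, 0, 1, 0, 1, 0],
  [1, 0, 1, 0, -1, 0],
  [1, 0, -1, 0, 1, 0],
  [1, 0, -1, 0, -1, 0],
  [-1, 0, 1, 0, 1, 0],
  [-1, 0, 1, 0, -1, 0],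
  [-1, 0, -1, 0, 1, 0],
  [-1, 0, -1, 0, -1, 0],
  [0, 0, -1, 1, 0, 1],
  [0, 0, -1, 1, 0, -1],
  [0, 0, 1, -1, 0, 1],
  [0, 0, 1, -1, 0, -1],
  [0, 1, 0, 0, -1, 1],
  [0, -1, 0, 0, -1, 1],
  [0, 1, 0, 0, 1, -1],
  [0, -1, 0, 0, 1, -1],
  [-1, 1, 0, 1, 0, 0],
  [-1, 1, 0, -1, 0, 0],
  [1, -1, 0, 1, 0, 0],
  [1, -1, 0, -1, 0, 0]]
    [[0, 1, 0, 0, 1, -1, 0, -2, 1, 0, 1, -1, 1, 0, 1, -1, 1, -1, 0, -1],
  [0, 0, 0, 1, 1, 1, -2, -2, 0, 2, -2, 1, 1, -1, 0, -1, 1, 0, 0, 0],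
  [0, 0, 0, 1, 0, -2, 1, -1, 1, -1, 1, 0, 1, -1, 0, -1, -1, 2, 0, 0],
  [0, 0, 0, 0, -2, -1, -1, 1, -1, 1, 0, 1, 0, -1, 1, -1, 0, 2, 0, 1],
  [0, 0, 0, 0, 0, 3, 2, -2, 2, -1, 1, -1, -1, 0, -1, 1, 0, -2, 0, -1],
  [0, 0, -1, 0, 0, 0, 1, -1, 2, -1, 0, -2, 1, -2, 2, -2, -2, 2, 0, 3],
  [1, -1, -1, 0, -1, 0, 0, 1, 2, -2, 1, -2, -2, 0, -1, 2, 0, 2, -1, 2],
  [0, 0, 0, 0, 0, 0, 0, 0, -2, 2, -2, 0, -1, 2, -2, 1, -1, 3, -1, 1],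
  [1, 1, 0, 1, 1, 0, 1, 1, 0, -3, 3, -4, -2, 0, 2, 0, 0, -1, 1, -2],
  [1, 0, 0, 0, 1, 0, 1, -1, -3, 0, 1, 0, 0, 0, 0, 0, 1, -1, 0, 0],
  [2, 0, 1, -2, 0, 0, 0, 1, -3, -1, 0, 0, 0, 0, 0, 0, 0, 1, 2, -1],
  [0, 1, 0, -3, -2, 0, -2, 2, -1, -1, 2, 0, 1, 1, 1, 1, 0, 0, 1, -1],
  [-1, 3, -3, 2, -5, 2, 4, -1, 2, -1, 0, -4, 0, 0, -1, 2, 0, 1, 0, 0],
  [-1, 1, -1, 1, -2, 1, -1, 3, 3, -1, 0, -3, 0, 0, 2, -1, -1, 0, 0, 0],
  [1, 1, 0, 0, -2, 0, -2, 2, 0, 0, 1, -1, 1, 3, 0, 0, -1, -1, -1, -1],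
  [-2, 0, -1, 0, -1, 2, -1, 1, 1, -1, 1, -1, 2, 0, 0, 0, -1, 1, 1, -1],
  [-3, -1, -2, -1, 1, 1, 1, 1, 1, 0, 0, -2, 2, -3, 2, 0, 0, 1, 1, 1],
  [-1, -2, -1, -1, 1, 2, 1, 1, -1, -2, 0, 1, 2, -2, 1, -1, 1, 0, 1, 0],
  [-1, -1, -1, -2, 1, 1, 1, 0, -1, 0, 0, 1, 1, 0, 1, -2, 1, 1, 0, 0],
  [-2, -1, 0, -1, 1, 0, 1, 1, 0, 0, -1, 0, 1, -1, 0, -1, 2, 1, 0, 0]]
    (·) (Fin.ofNat 20) (fun k => Fin.ofNat 20 (k + 1)) (by decide) (by decide +kernel) _ (fun i => ?_) A,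
    main [[0, 0, 1, 0, 0, 1],
  [0, 0, 1, 0, 0, -1],
  [0, 0, -1, 0, 0, 1],
  [0, 0, -1, 0, 0, -1],
  [0, 1, 0, 0, 1, 0],
  [0, -1, 0, 0, 1, 0],
  [0, 1, 0, 0, -1, 0],
  [0, -1, 0, 0, -1, 0],
  [1, 0, 0, 1, 0, 0],
  [1, 0, 0, -1, 0, 0],
  [-1, 0, 0, 1, 0, 0],
  [-1, 0, 0, -1, 0, 0]]
    [[0, 0, -4, 2, -2, 0, 2, 0, 2, -1, 1, 0],
  [1, 0, -2, -1, 0, 2, 0, 2, 2, -4, 0, 0],
  [-1, 0, 2, 1, -2, 2, 0, 0, -4, 2, 0, 0],
  [-3, -1, -3, 3, 0, 0, 2, 4, -3, 2, 0, -1],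
  [0, 0, 2, -4, 0, 3, 1, -2, 2, -2, 0, 0],
  [0, 1, -1, 0, 1, -6, 0, -5, 4, 3, 1, 2],
  [-4, -1, 1, -2, 2, 0, 0, 0, -1, 1, 3, 1],
  [-2, 2, 0, -4, 1, -1, 1, -1, 1, 0, 0, 3],
  [-2, 0, 0, 0, 3, 1, -1, 1, -1, -2, 0, 1],
  [1, 0, -2, -1, 2, -2, 0, 0, 0, -2, 0, 4],
  [-1, 0, -2, 1, 2, 4, 0, 0, 0, 0, -2, -2],
  [-1, 0, -2, 1, 4, 2, 0, 0, -2, -2, 0, 0]]
    ([4, 0, 8, 5, 3, 6, 10, 11, 9, 7, 1, 2].getD · 0) (fun k => Fin.ofNat 12 ([1, 10, 11, 4, 0, 3, 5, 9, 2, 8, 6, 7].getD k 0))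
    (fun k => Fin.ofNat 12 ([1, 10, 11, 4, 0, 3, 5, 9, 2, 8, 6, 7].getD k 0 + 1)) (by decide) (by decide +kernel) _ (fun i => ?_) A⟩
  · fin_cases i <;> simp [dod, em, X, g] <;> ring
  · fin_cases i <;> simp [ico, em, X]

end Pool.Agent.Results.MP_4a8fbb_co.Leap
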